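import Pool.Agent.H200GN.Base

/-!
# Gale's Nim with four heaps: additive periodicity
-/

set_option autoImplicit false

open Pool.Agent.H200GN

namespace Pool.Agent.Results.MP_24418a_co.AdditivePeriodicity

/-- **Gale's Nim with four heaps.** Let `a, b` be given, not both zero. The `P`-positions
`(a, b, c, d)` are the pairs `(c, f c)` for an involution `f` of the natural numbers with
`|f c - c| ≤ a + b`, and `f` is eventually additively periodic: `f (c + p) = f c + p` for all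
`c ≥ N`, where `p > 0` and `N + p ≤ 2 ^ ((a + 1) (b + 1) (2 a + 2 b + 1) ^ 2) + a + b + 1`. -/
theorem result (a b : ℕ) (hab : 0 < a + b) :
    ∃ (f : ℕ → ℕ) (N p : ℕ), (∀ c d, PPos a b c d ↔ f c = d) ∧ (∀ c, f (f c) = c) ∧
      (∀ c, c ≤ f c + (a + b) ∧ f c ≤ c + (a + b)) ∧ 0 < p ∧
      N + p ≤ 2 ^ ((a + 1) * (b + 1) * (2 * a + 2 * b + 1) ^ 2) + a + b + 1 ∧
      ∀ c, N ≤ c → f (c + p) = f c + p := by
  classical
  have hex : ∀ c, ∃ d, PPos a b c d := fun c => by
    obtain ⟨d, _, hd⟩ := exists_le (a := a) (b := b) (c := c) (by omega)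
    exact ⟨d, hd⟩
  choose f hf using hex
  have hfi : ∀ c d, PPos a b c d ↔ f c = d := by
    intro c d
    constructor
    · intro h
      exact uniq (by omega) (hf c) h
    · rintro rfl
      exact hf c
  have hb : ∀ c, c ≤ f c + (a + b) ∧ f c ≤ c + (a + b) := by
    intro c
    have h1 := le_of_pPos (by omega) (hf c)
    have h2 := le_of_pPos (by omega) (symm_cd.1 (hf c))
    omega
  set C : ℕ := 2 ^ ((a + 1) * (b + 1) * (2 * a + 2 * b + 1) ^ 2) with hC
  let st : Fin (C + 1) → Fin (a + 1) → Fin (b + 1) → Fin (2 * (a + b) + 1) →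
      Fin (2 * (a + b) + 1) → Prop :=
    fun c a' b' i j => PPos a' b' ((c : ℕ) + 1 + i) ((c : ℕ) + 1 + j)
  obtain ⟨c1, c2, hne, he⟩ := Fintype.exists_ne_map_eq_of_card_lt st (by
    simp only [Fintype.card_fun, Fintype.card_fin, Fintype.card_prop]
    have e : (((2 ^ (2 * (a + b) + 1)) ^ (2 * (a + b) + 1)) ^ (b + 1)) ^ (a + 1) = C := by
      rw [← pow_mul, ← pow_mul, ← pow_mul, hC]
      congr 1
      ring
    rw [e]
    omega)
  wlog hlt : c1 < c2 generalizing c1 c2
  · exact this c2 c1 hne.symm he.symm (lt_of_le_of_ne (not_lt.1 hlt) hne.symm)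
  have hlt' : (c1 : ℕ) < c2 := hlt
  have h2 := c2.2
  refine ⟨f, c1 + 1 + (a + b), c2 - c1, hfi, fun c => (hfi _ _).1 (symm_cd.1 (hf c)), hb, by omega,
    by omega, fun c hc => ?_⟩
  have hfc := hb c
  obtain ⟨x, rfl⟩ : ∃ x, c = c1 + 1 + x := Nat.exists_eq_add_of_le (by omega)
  obtain ⟨y, hy⟩ : ∃ y, f (c1 + 1 + x) = c1 + 1 + y := Nat.exists_eq_add_of_le (by omega)
  have h := shift (a := a) (b := b) (c1 := c1 + 1) (c2 := c2 + 1) (by omega) (by omega)
    (fun a' ha b' hb i hi j hj => by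
      have := congrFun (congrFun (congrFun (congrFun he ⟨a', by omega⟩) ⟨b', by omega⟩) ⟨i, hi⟩)
        ⟨j, hj⟩
      exact iff_of_eq this) (a + b + x + y) a b x y rfl le_rfl le_rfl
  have e1 : (c1 : ℕ) + 1 + x + (c2 - c1) = c2 + 1 + x := by omega
  have e2 : (c1 : ℕ) + 1 + y + (c2 - c1) = c2 + 1 + y := by omega
  rw [e1, hy, e2]
  exact (hfi _ _).1 (h.1 ((hfi _ _).2 hy))

end Pool.Agent.Results.MP_24418a_co.AdditivePeriodicity
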