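import Pool.Agent.H200GN.Rows

/-!
# Gale's Nim with four heaps: two heaps between 3 and 6
-/

set_option autoImplicit false

open Pool.Agent.H200GN

namespace Pool.Agent.Results.MP_24418a_co.HeapsThreeToSix

/-- **The `P`-positions of Gale's Nim with four different heaps, all larger than `2`, two of them at
most `6`.** For `3 ≤ a < b ≤ 6` and `b < c < d` the position `(a, b, c, d)` is a `P`-position if and
only if `(c, d)` is in the first of the two lists given for `(a, b)` below, or `c` is at least the
number given and the remainder of `c` modulo `8`, together with `d - c`, is in the second list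
(see `Row`). -/
theorem result :
    Row 3 4 11 [(5, 10), (6, 9), (8, 13)] [(2, 3), (3, 1), (6, 3), (7, 1)] ∧
    Row 3 5 18 [(9, 14), (11, 16), (12, 13), (15, 17)] [(2, 6), (3, 2), (4, 2), (7, 2)] ∧
    Row 3 6 28 [(10, 15), (11, 14), (12, 17), (13, 18), (16, 20), (19, 22), (21, 26), (23, 27),
      (24, 25)] [(0, 1), (4, 1), (6, 4), (7, 4)] ∧
    Row 4 5 27 [(6, 11), (7, 12), (13, 14), (15, 19), (16, 17), (18, 25), (20, 23), (21, 22),
      (24, 26)] [(1, 1), (3, 5), (4, 3), (5, 1)] ∧
    Row 4 6 43 [(8, 10), (12, 14), (13, 15), (16, 18), (17, 19), (20, 21), (22, 26), (23, 28),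
      (24, 27), (25, 32), (29, 31), (30, 35), (33, 40), (34, 39), (36, 38), (37, 42), (41, 43)]
      [(0, 2), (1, 2), (4, 2), (5, 2)] ∧
    Row 5 6 42 [(7, 8), (9, 10), (12, 18), (13, 16), (14, 15), (17, 24), (19, 20), (21, 23),
      (22, 27), (25, 26), (28, 33), (29, 32), (30, 31), (34, 35), (36, 41), (37, 39), (38, 40)]
      [(2, 1), (4, 5), (5, 3), (6, 1)] := by
  refine ⟨?_, ?_, ?_, ?_, ?_, ?_⟩ <;> exact row_of_chk (by omega) (by omega) (by decide +kernel)

end Pool.Agent.Results.MP_24418a_co.HeapsThreeToSix
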